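import Pool.Agent.Y671.GL.Spec6
import Pool.Agent.Y412.GL.HSZ
import Pool.Agent.W670.SD.Bd

set_option autoImplicit false

/-!
# GD2, task TOTH, first part: pointwise estimates for `X`
-/

namespace Pool.Agent.Y67.GL

open Complex Filter Topology MeasureTheory Set Metric
open scoped ComplexConjugate
open Pool.Agent.Y671.GL
open Pool.Agent.Y412.GL.HSZ (gamH seg_le hsz)
open Pool.Agent.H24R2.JP (Om)

variable {κ : ℝ} {H X Z : ℂ → ℂ}

lemma log_ge_half {t : ℝ} (ht : 2 ≤ t) : 1 / 2 ≤ Real.log t := by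
  have h2 : Real.log 2 ≤ Real.log t := Real.log_le_log (by norm_num) ht
  have := Real.log_two_gt_d9
  linarith

/-- size of `X` on horizontal lines -/
lemma xbd (hκ : 1 / 2 ≤ κ) (hC : CG κ H X Z) : ∃ K T0 : ℝ, 1 ≤ K ∧ 2 ≤ T0 ∧ ∀ t s : ℝ, T0 ≤ t →
    (|s| ≤ t / 16 → ‖X (I * t + (s : ℂ))‖ ≤ Real.exp (K * Real.log t) * ‖H (I * t)‖ *
      Real.exp ((κ * Real.log t + K) * |s|)) ∧
    (t / 16 ≤ |s| → ‖X (I * t + (s : ℂ))‖ ≤ ‖H (I * t)‖ * Real.exp (K * |s| ^ (7 / 4 : ℝ))) := by
  obtain ⟨K1, T1, hK1, hT1, hg⟩ := gamH hC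
  obtain ⟨-, -, ⟨K2, T2, hK2, hT2, hb⟩, -⟩ := hsz κ H X Z hκ hC _ _ rfl rfl
  have hk0 : (0 : ℝ) < 2 * κ := by linarith
  have hk1 : (1 : ℝ) ≤ 2 * κ := by linarith
  have hlk : 0 ≤ Real.log (2 * κ) := Real.log_nonneg hk1
  obtain ⟨K, hK⟩ : ∃ K : ℝ, K = K2 + 2 * (K2 * Real.log (2 * κ)) + κ * Real.log (2 * κ) + 2 * κ * K2 +
    K2 * (2 * κ) ^ (7 / 4 : ℝ) := ⟨_, rfl⟩
  have p1 : 0 ≤ K2 * Real.log (2 * κ) := by positivity
  have p2 : 0 ≤ κ * Real.log (2 * κ) := by positivity
  have p3 : 0 ≤ 2 * κ * K2 := by positivity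
  have p4 : 0 ≤ K2 * (2 * κ) ^ (7 / 4 : ℝ) := by positivity
  refine ⟨K, max T1 T2, by linarith, le_max_of_le_left hT1, fun t s ht => ?_⟩
  have ht1 : T1 ≤ t := (le_max_left _ _).trans ht
  have ht2 : T2 ≤ t := (le_max_right _ _).trans ht
  have ht0 : 0 < t := by linarith
  have hlt : 1 / 2 ≤ Real.log t := log_ge_half (by linarith)
  have hH : 0 < ‖H (I * t)‖ := (Real.exp_pos _).trans_le (hg t ht1).1
  have e1 : (I * ((2 * κ * t : ℝ) : ℂ) + ((2 * κ * s : ℝ) : ℂ)) / (2 * κ) = I * t + (s : ℂ) := by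
    have : (κ : ℂ) ≠ 0 := by
      have : κ ≠ 0 := by linarith
      exact_mod_cast this
    push_cast
    field_simp
  have e2 : I * ((2 * κ * t : ℝ) : ℂ) / (2 * κ) = I * t := by
    have : (κ : ℂ) ≠ 0 := by
      have : κ ≠ 0 := by linarith
      exact_mod_cast this
    push_cast
    field_simp
  obtain ⟨b1, b2⟩ := hb (2 * κ * t) ((2 * κ * s : ℝ) : ℂ) (by nlinarith) (by simp)
  simp only [e1, e2, if_pos hH, Complex.ofReal_re, abs_mul, abs_of_pos hk0, abs_of_pos (by linarith : 0 < κ),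
    abs_two] at b1 b2
  have hs0 := abs_nonneg s
  have hlog : Real.log (2 * κ * t) = Real.log (2 * κ) + Real.log t := Real.log_mul hk0.ne' ht0.ne'
  refine ⟨fun h => ?_, fun h => ?_⟩
  · refine (b1 (by nlinarith)).trans ?_
    rw [hlog]
    unfold Om
    rw [hlog]
    have q1 : K2 * (Real.log (2 * κ) + Real.log t) ≤ K * Real.log t := by
      have : K2 * Real.log (2 * κ) ≤ 2 * (K2 * Real.log (2 * κ)) * Real.log t := by nlinarith
      have h3 : 0 ≤ (κ * Real.log (2 * κ) + 2 * κ * K2 + K2 * (2 * κ) ^ (7 / 4 : ℝ)) * Real.log t := by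
        positivity
      rw [hK]
      linarith
    have q2 : ((Real.log (2 * κ) + Real.log t) / 2 + K2) * (2 * κ * |s|) ≤
        (κ * Real.log t + K) * |s| := by
      have : ((Real.log (2 * κ) + Real.log t) / 2 + K2) * (2 * κ * |s|) =
        (κ * Real.log t + (κ * Real.log (2 * κ) + 2 * κ * K2)) * |s| := by ring
      rw [this]
      apply mul_le_mul_of_nonneg_right _ hs0
      linarith
    gcongr
  · refine (b2 (by nlinarith)).trans ?_
    have q3 : K2 * (2 * κ * |s|) ^ (7 / 4 : ℝ) ≤ K * |s| ^ (7 / 4 : ℝ) := by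
      rw [Real.mul_rpow hk0.le hs0, ← mul_assoc]
      apply mul_le_mul_of_nonneg_right _ (by positivity)
      linarith
    gcongr

/-- the logarithmic derivative of `X` to the right -/
lemma xld (hC : CG κ H X Z) : ∃ K T0 : ℝ, 1 ≤ K ∧ 2 ≤ T0 ∧ ∀ (t : ℝ) (u : ℂ), T0 ≤ t → ‖u‖ ≤ t / 8 →
    1 ≤ u.re → X (I * t + u) ≠ 0 ∧ ‖logDeriv X (I * t + u) - ((κ * Real.log t : ℝ) : ℂ)‖ ≤ K ∧
    Real.exp (κ * Real.log t * u.re - K * ‖u‖ - K) * ‖H (I * t)‖ ≤ ‖X (I * t + u)‖ := by
  obtain ⟨K1, T1, hK1, hT1, hg⟩ := gamH hC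
  obtain ⟨c, K3, hc0, hK3, hr⟩ := hC.cf.rgt (1 / 2) (by norm_num)
  refine ⟨K1 + K3 + |Real.log c|, T1, ?_, hT1, fun t u ht hu hur => ?_⟩
  · have := abs_nonneg (Real.log c)
    linarith
  have ht0 : 0 < t := by linarith
  obtain ⟨-, g2, g3, g4, g5⟩ := (hg t ht).2 u hu
  obtain ⟨w, hw⟩ : ∃ w : ℂ, w = I * t + u := ⟨_, rfl⟩
  rw [← hw] at g2 g3 g4 g5 ⊢
  have hwim : 0 < w.im := by
    have h1 : w.im = t + u.im := by rw [hw]; simp
    have h2 := Complex.abs_im_le_norm u
    have h3 := neg_abs_le u.im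
    rw [h1]
    linarith
  have hwre : w.re = u.re := by rw [hw]; simp
  obtain ⟨r1, r2, r3⟩ := hr (1 / 2 + w) (by simp [hwre]; linarith)
  have hZ0 : Z (1 / 2 + w) ≠ 0 := norm_pos_iff.1 (hc0.trans_le r1)
  have hXe : X =ᶠ[𝓝 w] fun v => H v * Z (1 / 2 + v) := by
    have ho : IsOpen {v : ℂ | 0 < v.im} := isOpen_lt continuous_const Complex.continuous_im
    filter_upwards [ho.mem_nhds hwim] with v hv using hC.cf.eq v hv
  have eZ : HasDerivAt (fun v : ℂ => Z (1 / 2 + v)) (deriv Z (1 / 2 + w)) w := by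
    have := (hC.cf.diffZ (1 / 2 + w)).hasDerivAt.comp_const_add (1 / 2) w
    simpa using this
  have hX1 : deriv X w = deriv H w * Z (1 / 2 + w) + H w * deriv Z (1 / 2 + w) := by
    rw [hXe.deriv_eq]
    exact (g3.hasDerivAt.mul eZ).deriv
  have hX2 : X w = H w * Z (1 / 2 + w) := hC.cf.eq w hwim
  have hX0 : X w ≠ 0 := by rw [hX2]; exact mul_ne_zero g4 hZ0
  have hld : logDeriv X w = logDeriv H w + logDeriv Z (1 / 2 + w) := by
    rw [logDeriv_apply, logDeriv_apply, logDeriv_apply, hX1, hX2]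
    clear hX1 hX2 hX0 eZ hXe r1 r2 r3
    generalize deriv Z (1 / 2 + w) = b
    generalize Z (1 / 2 + w) = a at hZ0 ⊢
    generalize deriv H w = d
    generalize H w = e at g4 ⊢
    field_simp
  have hlc := abs_nonneg (Real.log c)
  refine ⟨hX0, ?_, ?_⟩
  · rw [hld]
    have : logDeriv H w + logDeriv Z (1 / 2 + w) - ((κ * Real.log t : ℝ) : ℂ) =
        (logDeriv H w - ((κ * Real.log t : ℝ) : ℂ)) + logDeriv Z (1 / 2 + w) := by ring
    rw [this]
    refine (norm_add_le _ _).trans ?_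
    linarith
  · rw [hX2, norm_mul]
    have hu0 := norm_nonneg u
    calc Real.exp (κ * Real.log t * u.re - (K1 + K3 + |Real.log c|) * ‖u‖ - (K1 + K3 + |Real.log c|)) *
          ‖H (I * t)‖ ≤ Real.exp ((κ * Real.log t * u.re - K1 * ‖u‖) + Real.log c) * ‖H (I * t)‖ := by
          gcongr
          have h1 := neg_abs_le (Real.log c)
          have h2 : 0 ≤ (K3 + |Real.log c|) * ‖u‖ := by positivity
          linarith
      _ = (Real.exp (κ * Real.log t * u.re - K1 * ‖u‖) * ‖H (I * t)‖) * c := by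
          rw [Real.exp_add, Real.exp_log hc0]
          ring
      _ ≤ ‖H w‖ * ‖Z (1 / 2 + w)‖ := by gcongr

/-- Expansion around a point. -/
lemma expand {f : ℂ → ℂ} (hf : Differentiable ℂ f) {z0 : ℂ} {r K : ℝ} {lam : ℂ} (hr : 0 < r)
    (h : ∀ z ∈ ball z0 r, f z ≠ 0 ∧ ‖logDeriv f z - lam‖ ≤ K) {s : ℂ} (hs : ‖s‖ ≤ r / 2) :
    ‖f (z0 + s) - f z0 * cexp (logDeriv f z0 * s)‖ ≤
      ‖f z0‖ * Real.exp (logDeriv f z0 * s).re * (4 * K / r * ‖s‖ ^ 2 * Real.exp (4 * K / r * ‖s‖ ^ 2)) := by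
  have hld : ∀ z, logDeriv f z = deriv f z / f z := fun z => logDeriv_apply f z
  have hqd : DifferentiableOn ℂ (fun z => deriv f z / f z) (ball z0 r) := by
    intro w hw
    exact (((hf.analyticAt w).deriv).differentiableAt.div (hf w) (h w hw).1).differentiableWithinAt
  obtain ⟨φ, hφ0, hφ⟩ := hqd.isExactOn_ball.with_val_at z0 0
  have hexp : ∀ z ∈ ball z0 r, f z = f z0 * Complex.exp (φ z) := by
    have hconst : ∀ z ∈ ball z0 r, f z * Complex.exp (-φ z) = f z0 * Complex.exp (-φ z0) := by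
      intro z hz
      have hd : ∀ w ∈ ball z0 r, HasDerivAt (fun w => f w * Complex.exp (-φ w)) 0 w := by
        intro w hw
        have h1 : HasDerivAt (fun w => f w * Complex.exp (-φ w))
            (deriv f w * Complex.exp (-φ w) + f w * (Complex.exp (-φ w) * -(deriv f w / f w))) w :=
          (hf w).hasDerivAt.mul (hφ w hw).neg.cexp
        have hGw := (h w hw).1
        have h2 : deriv f w * Complex.exp (-φ w) +
            f w * (Complex.exp (-φ w) * -(deriv f w / f w)) = 0 := by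
          field_simp
          ring
        rw [h2] at h1
        exact h1
      exact isOpen_ball.is_const_of_deriv_eq_zero (isConnected_ball hr).isPreconnected
        (fun w hw => (hd w hw).differentiableAt.differentiableWithinAt)
        (fun w hw => (hd w hw).deriv) hz (mem_ball_self hr)
    intro z hz
    have h1 := hconst z hz
    rw [hφ0, neg_zero, Complex.exp_zero, mul_one] at h1
    rw [← h1, mul_assoc, ← Complex.exp_add]
    simp
  -- the derivative of the logarithmic derivative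
  have hW' : ∀ z ∈ ball z0 (r / 2), ‖deriv (fun z => deriv f z / f z) z‖ ≤ 4 * K / r := by
    intro z hz
    rw [mem_ball] at hz
    have hsub : closedBall z (r / 4) ⊆ ball z0 r := by
      intro w hw
      rw [mem_closedBall] at hw
      rw [mem_ball]
      calc dist w z0 ≤ dist w z + dist z z0 := dist_triangle _ _ _
        _ < r := by linarith
    have hW2 : deriv (fun z => deriv f z / f z) z = deriv (fun z => deriv f z / f z - lam) z := by
      rw [deriv_sub_const]
    rw [hW2]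
    have := Complex.norm_deriv_le_of_forall_mem_sphere_norm_le (f := fun z => deriv f z / f z - lam) (c := z)
      (R := r / 4) (C := K) (by positivity) (by
        refine DifferentiableOn.diffContOnCl (fun w hw => ?_)
        have : w ∈ closedBall z (r / 4) := closure_ball_subset_closedBall hw
        exact ((hqd.differentiableAt (isOpen_ball.mem_nhds (hsub this))).sub_const _).differentiableWithinAt)
      (fun w hw => by
        have := (h w (hsub (sphere_subset_closedBall hw))).2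
        rwa [hld] at this)
    refine this.trans (le_of_eq ?_)
    field_simp
  have hK : 0 ≤ K := (norm_nonneg _).trans (h z0 (mem_ball_self hr)).2
  have hD : 0 ≤ 4 * K / r := by positivity
  -- Lipschitz
  have hlip : ∀ z ∈ ball z0 (r / 2), ‖deriv f z / f z - deriv f z0 / f z0‖ ≤ 4 * K / r * ‖z - z0‖ := by
    intro z hz
    exact (convex_ball z0 (r / 2)).norm_image_sub_le_of_norm_deriv_le (𝕜 := ℂ)
      (f := fun z => deriv f z / f z)
      (fun w hw => hqd.differentiableAt (isOpen_ball.mem_nhds (ball_subset_ball (by linarith) hw))) hW'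
      (mem_ball_self (by positivity)) hz
  -- second mean value inequality, along the segment
  have hseg : ‖φ (z0 + s) - logDeriv f z0 * s‖ ≤ 4 * K / r * ‖s‖ ^ 2 := by
    have e1 : ∀ x : ℝ, HasDerivAt (fun x : ℝ => z0 + (x : ℂ) * s) s x := by
      intro x
      have := ((Complex.ofRealCLM.hasDerivAt (x := x)).mul_const s).const_add z0
      simpa using this
    have e2 : ∀ x : ℝ, HasDerivAt (fun x : ℝ => (deriv f z0 / f z0) * ((x : ℂ) * s))
        ((deriv f z0 / f z0) * s) x := by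
      intro x
      have := ((Complex.ofRealCLM.hasDerivAt (x := x)).mul_const s).const_mul (deriv f z0 / f z0)
      simpa using this
    have hmem : ∀ x ∈ Ico (0 : ℝ) 1, z0 + (x : ℂ) * s ∈ ball z0 (r / 2) := by
      intro x hx
      rw [mem_ball, dist_eq_norm, add_sub_cancel_left, norm_mul, Complex.norm_real,
        Real.norm_of_nonneg hx.1]
      rcases eq_or_ne s 0 with h0 | h0
      · rw [h0, norm_zero, mul_zero]; positivity
      · have : 0 < ‖s‖ := norm_pos_iff.2 h0
        have : x * ‖s‖ < 1 * ‖s‖ := mul_lt_mul_of_pos_right hx.2 this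
        linarith
    have hmem' : ∀ x ∈ Icc (0 : ℝ) 1, z0 + (x : ℂ) * s ∈ ball z0 r := by
      intro x hx
      rw [mem_ball, dist_eq_norm, add_sub_cancel_left, norm_mul, Complex.norm_real,
        Real.norm_of_nonneg hx.1]
      have : x * ‖s‖ ≤ 1 * ‖s‖ := mul_le_mul_of_nonneg_right hx.2 (norm_nonneg _)
      linarith
    have key := norm_image_sub_le_of_norm_deriv_le_segment' (f := fun x : ℝ =>
        φ (z0 + (x : ℂ) * s) - (deriv f z0 / f z0) * ((x : ℂ) * s))
      (f' := fun x : ℝ => deriv f (z0 + (x : ℂ) * s) / f (z0 + (x : ℂ) * s) * s -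
        (deriv f z0 / f z0) * s) (a := 0) (b := 1) (C := 4 * K / r * ‖s‖ ^ 2)
      (by
        intro x hx
        have d1 : HasDerivAt (fun x : ℝ => φ (z0 + (x : ℂ) * s))
            (deriv f (z0 + (x : ℂ) * s) / f (z0 + (x : ℂ) * s) * s) x :=
          HasDerivAt.comp (h₂ := φ) x (hφ _ (hmem' x hx)) (e1 x)
        exact (d1.sub (e2 x)).hasDerivWithinAt)
      (by
        intro x hx
        rw [← sub_mul, norm_mul]
        have h1 := hlip _ (hmem x hx)
        rw [add_sub_cancel_left, norm_mul, Complex.norm_real, Real.norm_of_nonneg hx.1] at h1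
        have h2 : x * ‖s‖ ≤ ‖s‖ := by
          have := mul_le_mul_of_nonneg_right hx.2.le (norm_nonneg s)
          linarith
        calc ‖deriv f (z0 + (x : ℂ) * s) / f (z0 + (x : ℂ) * s) - deriv f z0 / f z0‖ * ‖s‖
            ≤ (4 * K / r * (x * ‖s‖)) * ‖s‖ := by gcongr
          _ ≤ (4 * K / r * ‖s‖) * ‖s‖ := by gcongr
          _ = 4 * K / r * ‖s‖ ^ 2 := by ring) 1 (right_mem_Icc.2 zero_le_one)
    simp only [Complex.ofReal_one, one_mul, Complex.ofReal_zero, zero_mul, mul_zero, add_zero,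
      hφ0, sub_zero, mul_one] at key
    rw [hld]
    exact key
  have hzs : z0 + s ∈ ball z0 r := by
    rw [mem_ball, dist_eq_norm, add_sub_cancel_left]
    linarith
  obtain ⟨E, hE⟩ : ∃ E : ℂ, E = φ (z0 + s) - logDeriv f z0 * s := ⟨_, rfl⟩
  rw [← hE] at hseg
  have e3 : f (z0 + s) - f z0 * cexp (logDeriv f z0 * s) =
      f z0 * cexp (logDeriv f z0 * s) * (cexp E - 1) := by
    rw [hexp _ hzs]
    have : φ (z0 + s) = logDeriv f z0 * s + E := by rw [hE]; ring
    rw [this, Complex.exp_add]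
    ring
  rw [e3, norm_mul, norm_mul, Complex.norm_exp]
  have hE2 : ‖cexp E - 1‖ ≤ ‖E‖ * Real.exp ‖E‖ := by
    have := Complex.norm_exp_sub_sum_le_norm_mul_exp E 1
    simpa using this
  have hE3 : ‖E‖ * Real.exp ‖E‖ ≤ 4 * K / r * ‖s‖ ^ 2 * Real.exp (4 * K / r * ‖s‖ ^ 2) := by
    gcongr
  exact mul_le_mul_of_nonneg_left (hE2.trans hE3) (by positivity)

end Pool.Agent.Y67.GL
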