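import Pool.Agent.Y67.GL.A1

set_option autoImplicit false

/-!
# GD2, task TOTH, second part: the heat flow from above and below
-/

namespace Pool.Agent.Y67.GL

open Complex Filter Topology MeasureTheory Set Metric
open scoped ComplexConjugate
open Pool.Agent.Y671.GL
open Pool.Agent.Y412.GL.HSZ (gamH seg_le hsz)
open Pool.Agent.W670.SD (gz gr gh two_sqrt_le v_ge pow74 eq_pt)
open Pool.Agent.W169.HF (heat Slow)

variable {κ : ℝ} {H X Z : ℂ → ℂ}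

/-! ### Upper bound -/

lemma hpt1 (hκ : 1 / 2 ≤ κ) (hC : CG κ H X Z) : ∃ K : ℝ, 1 ≤ K ∧ ∀ X0 : ℝ, ∃ T0 : ℝ, 2 ≤ T0 ∧
    ∀ t : ℝ, T0 ≤ t → ∀ τ : ℝ, 0 ≤ τ → τ ≤ 1 / 8 → ∀ x v : ℝ, |x| ≤ X0 →
      ‖X (I * t + ((x + 2 * Real.sqrt τ * v : ℝ) : ℂ))‖ ≤
        Real.exp (K * Real.log t) * ‖H (I * t)‖ *
          (Real.exp ((κ * Real.log t + K) * (x + 2 * Real.sqrt τ * v)) +
          Real.exp (-(κ * Real.log t + K) * (x + 2 * Real.sqrt τ * v))) +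
        ‖H (I * t)‖ * Real.exp (v ^ 2 / 2) := by
  obtain ⟨K, T0, hK, hT0, h⟩ := xbd hκ hC
  refine ⟨K, hK, fun X0 => ⟨max T0 (max (16 * (8 * K) ^ 4) (32 * X0)), le_max_of_le_left hT0, ?_⟩⟩
  intro t ht τ hτ0 hτ1 x v hx
  have ht1 : T0 ≤ t := (le_max_left _ _).trans ht
  have ht2 : 16 * (8 * K) ^ 4 ≤ t := (le_max_left _ _).trans ((le_max_right _ _).trans ht)
  have ht3 : 32 * X0 ≤ t := (le_max_right _ _).trans ((le_max_right _ _).trans ht)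
  obtain ⟨s, hs⟩ : ∃ s : ℝ, s = x + 2 * Real.sqrt τ * v := ⟨_, rfl⟩
  have hvg := v_ge (v := v) hτ1 hx
  rw [← hs] at hvg ⊢
  obtain ⟨a1, a2⟩ := h t s ht1
  have hH : 0 ≤ ‖H (I * t)‖ := norm_nonneg _
  obtain ⟨L, hL⟩ : ∃ L : ℝ, L = κ * Real.log t + K := ⟨_, rfl⟩
  obtain ⟨P, hP⟩ : ∃ P : ℝ, P = Real.exp (K * Real.log t) := ⟨_, rfl⟩
  have hP0 : 0 ≤ P := by rw [hP]; positivity
  rw [← hL, ← hP] at a1 ⊢
  rcases le_total |s| (t / 16) with hc | hc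
  · refine (a1 hc).trans ?_
    have h5 : Real.exp (L * |s|) ≤ Real.exp (L * s) + Real.exp (-L * s) := by
      rcases abs_cases s with ⟨h6, -⟩ | ⟨h6, -⟩
      · rw [h6]; linarith [Real.exp_pos (-L * s)]
      · rw [h6]
        have : L * -s = -L * s := by ring
        rw [this]
        linarith [Real.exp_pos (L * s)]
    have h7 : 0 ≤ P * ‖H (I * t)‖ := by positivity
    have h8 : 0 ≤ ‖H (I * t)‖ * Real.exp (v ^ 2 / 2) := by positivity
    have := mul_le_mul_of_nonneg_left h5 h7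
    linarith
  · refine (a2 hc).trans ?_
    have h9 : K * |s| ^ (7 / 4 : ℝ) ≤ v ^ 2 / 2 :=
      (pow74 hK (by linarith)).trans (hvg (by linarith))
    have h10 : ‖H (I * t)‖ * Real.exp (K * |s| ^ (7 / 4 : ℝ)) ≤ ‖H (I * t)‖ * Real.exp (v ^ 2 / 2) := by
      gcongr
    have h7 : 0 ≤ P * ‖H (I * t)‖ * (Real.exp (L * s) + Real.exp (-L * s)) := by
      positivity
    linarith

lemma hup0 (hκ : 1 / 2 ≤ κ) (hC : CG κ H X Z) : ∃ K : ℝ, 1 ≤ K ∧ ∀ X0 : ℝ, ∃ T0 : ℝ, 2 ≤ T0 ∧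
    ∀ t : ℝ, T0 ≤ t → ∀ τ : ℝ, 0 ≤ τ → τ ≤ 1 / 8 → ∀ z : ℂ, z.im = t → |z.re| ≤ X0 →
      ‖heat τ X z‖ ≤ (2 * Real.exp (K * Real.log t) + 2) * ‖H (I * t)‖ *
        Real.exp ((κ * Real.log t + K) * |z.re| + τ * (κ * Real.log t + K) ^ 2) := by
  obtain ⟨K, hK, h⟩ := hpt1 hκ hC
  refine ⟨K, hK, fun X0 => ?_⟩
  obtain ⟨T0, hT0, ht⟩ := h X0
  refine ⟨T0, hT0, fun t htT τ hτ0 hτ1 z hz hx => ?_⟩
  replace ht := ht t htT
  have hlt : 1 / 2 ≤ Real.log t := log_ge_half (hT0.trans htT)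
  unfold heat
  rw [norm_mul, Complex.norm_real, Real.norm_of_nonneg (by positivity)]
  obtain ⟨N, hN⟩ : ∃ N : ℝ, N = ‖H (I * t)‖ := ⟨_, rfl⟩
  have hN0 : 0 ≤ N := by rw [hN]; exact norm_nonneg _
  obtain ⟨a, ha⟩ : ∃ a : ℝ, a = κ * Real.log t + K := ⟨_, rfl⟩
  have ha0 : 0 ≤ a := by rw [ha]; positivity
  obtain ⟨P, hP⟩ : ∃ P : ℝ, P = Real.exp (K * Real.log t) := ⟨_, rfl⟩
  have hP0 : 0 ≤ P := by rw [hP]; positivity
  obtain ⟨i1, j1⟩ := gr hτ0 a z.re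
  obtain ⟨i2, j2⟩ := gr hτ0 (-a) z.re
  obtain ⟨i3, j3⟩ := gh
  have hpt : ∀ v : ℝ, ‖((Real.exp (-v ^ 2) : ℝ) : ℂ) * X (z + ((2 * Real.sqrt τ * v : ℝ) : ℂ))‖ ≤
      P * N * (Real.exp (-v ^ 2) * Real.exp (a * (z.re + 2 * Real.sqrt τ * v))) +
      P * N * (Real.exp (-v ^ 2) * Real.exp (-a * (z.re + 2 * Real.sqrt τ * v))) +
      N * (Real.exp (-v ^ 2) * Real.exp (v ^ 2 / 2)) := by
    intro v
    have h5 := ht τ hτ0 hτ1 z.re v hx
    rw [← hz, ← eq_pt, hz, ← hN, ← ha, ← hP] at h5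
    rw [norm_mul, Complex.norm_real, Real.norm_of_nonneg (Real.exp_pos _).le]
    have h6 := mul_le_mul_of_nonneg_left h5 (Real.exp_pos (-v ^ 2)).le
    refine h6.trans (le_of_eq ?_)
    ring
  have hI12 : Integrable (fun v : ℝ => P * N * (Real.exp (-v ^ 2) * Real.exp (a * (z.re + 2 * Real.sqrt τ * v))) +
      P * N * (Real.exp (-v ^ 2) * Real.exp (-a * (z.re + 2 * Real.sqrt τ * v)))) :=
    (i1.const_mul _).add (i2.const_mul _)
  have hI : Integrable (fun v : ℝ => P * N * (Real.exp (-v ^ 2) * Real.exp (a * (z.re + 2 * Real.sqrt τ * v))) +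
      P * N * (Real.exp (-v ^ 2) * Real.exp (-a * (z.re + 2 * Real.sqrt τ * v))) +
      N * (Real.exp (-v ^ 2) * Real.exp (v ^ 2 / 2))) := hI12.add (i3.const_mul _)
  have hint := norm_integral_le_of_norm_le hI (Eventually.of_forall hpt)
  rw [integral_add hI12 (i3.const_mul _), integral_add (i1.const_mul _) (i2.const_mul _),
      integral_const_mul, integral_const_mul, integral_const_mul, j1, j2] at hint
  have hπ : 0 < Real.sqrt Real.pi := Real.sqrt_pos.2 Real.pi_pos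
  have hE1 : Real.exp (a * z.re + τ * a ^ 2) ≤ Real.exp (a * |z.re| + τ * a ^ 2) := by
    have := mul_le_mul_of_nonneg_left (le_abs_self z.re) ha0
    apply Real.exp_le_exp.2
    linarith
  have hE2 : Real.exp (-a * z.re + τ * (-a) ^ 2) ≤ Real.exp (a * |z.re| + τ * a ^ 2) := by
    have := mul_le_mul_of_nonneg_left (neg_abs_le z.re) ha0
    apply Real.exp_le_exp.2
    rw [neg_sq]
    linarith
  have hE3 : 1 ≤ Real.exp (a * |z.re| + τ * a ^ 2) := by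
    rw [Real.one_le_exp_iff]
    positivity
  rw [← hN, ← ha, ← hP]
  obtain ⟨E, hE⟩ : ∃ E : ℝ, E = Real.exp (a * |z.re| + τ * a ^ 2) := ⟨_, rfl⟩
  rw [← hE] at hE1 hE2 hE3 ⊢
  have b1 : P * N * (Real.sqrt Real.pi * Real.exp (a * z.re + τ * a ^ 2)) ≤
      P * N * (Real.sqrt Real.pi * E) := by gcongr
  have b2 : P * N * (Real.sqrt Real.pi * Real.exp (-a * z.re + τ * (-a) ^ 2)) ≤
      P * N * (Real.sqrt Real.pi * E) := by gcongr
  have b3 : N * ∫ v : ℝ, Real.exp (-v ^ 2) * Real.exp (v ^ 2 / 2) ≤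
      N * (Real.sqrt Real.pi * (2 * E)) := by
    apply mul_le_mul_of_nonneg_left _ hN0
    refine j3.trans ?_
    apply mul_le_mul_of_nonneg_left _ hπ.le
    linarith
  rw [one_div, inv_mul_le_iff₀ hπ]
  refine hint.trans ((add_le_add (add_le_add b1 b2) b3).trans (le_of_eq ?_))
  ring

/-- The upper bound. -/
theorem upper (hκ : 1 / 2 ≤ κ) (hC : CG κ H X Z) {K0 : ℝ} (hK0 : 1 ≤ K0) : ∃ C : ℝ, 0 ≤ C ∧ ∀ X0 : ℝ, 0 ≤ X0 →
    ∃ T0 : ℝ, 2 ≤ T0 ∧ ∀ t : ℝ, T0 ≤ t → ∀ τ : ℝ, 0 ≤ τ → τ ≤ 1 / 8 → τ * Real.log t ≤ K0 →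
      ∀ z : ℂ, |z.re| ≤ X0 → |z.im - t| ≤ X0 →
      ‖heat τ X z‖ ≤ ‖H (I * t)‖ * Real.exp (κ * Real.log t * (|z.re| + C)) := by
  obtain ⟨K, hK, h⟩ := hup0 hκ hC
  obtain ⟨K2, T2, hK2, hT2, hst⟩ := gamH hC
  refine ⟨2 * K + κ * K0 + 1, by positivity, fun X0 hX0 => ?_⟩
  obtain ⟨T1, hT1, h⟩ := h X0
  obtain ⟨D, hD⟩ : ∃ D : ℝ, D = Real.log 4 + K + K2 * X0 + (κ + K) * X0 +
    2 * κ * K0 * (κ + K) + (κ + K) ^ 2 := ⟨_, rfl⟩
  refine ⟨max (T1 + X0) (max T2 (max (8 * X0) (Real.exp (2 * D)))), ?_, ?_⟩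
  · exact le_max_of_le_left (by linarith)
  intro t ht τ hτ0 hτ1 hτK z hx hy
  have g1 : T1 + X0 ≤ t := (le_max_left _ _).trans ht
  have g2 : T2 ≤ t := (le_max_left _ _).trans ((le_max_right _ _).trans ht)
  have g3 : 8 * X0 ≤ t := (le_max_left _ _).trans ((le_max_right _ _).trans ((le_max_right _ _).trans ht))
  have g4 : Real.exp (2 * D) ≤ t :=
    (le_max_right _ _).trans ((le_max_right _ _).trans ((le_max_right _ _).trans ht))
  obtain ⟨y, hyd⟩ : ∃ y : ℝ, y = z.im := ⟨_, rfl⟩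
  rw [← hyd] at hy
  rw [abs_le] at hy
  have hb := h y (by linarith [hy.1]) τ hτ0 hτ1 z hyd.symm hx
  have ht0 : 0 < t := by linarith
  have hy0 : 0 < y := by linarith [hy.1]
  have hy2 : 2 ≤ y := by linarith [hy.1]
  -- the size of H
  have hHy : ‖H (I * y)‖ ≤ ‖H (I * t)‖ * Real.exp (K2 * X0) := by
    have hn : ‖I * ((y - t : ℝ) : ℂ)‖ = |y - t| := by
      rw [norm_mul, Complex.norm_I, one_mul, Complex.norm_real, Real.norm_eq_abs]
    have h6 := ((hst t g2).2 (I * ((y - t : ℝ) : ℂ)) (by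
      rw [hn, abs_le]
      constructor <;> linarith [hy.1, hy.2])).1
    have e : I * (t : ℂ) + I * ((y - t : ℝ) : ℂ) = I * (y : ℂ) := by push_cast; ring
    rw [e, hn] at h6
    refine h6.trans ?_
    rw [mul_comm]
    have h7 : κ * Real.log t * (I * ((y - t : ℝ) : ℂ)).re + K2 * |y - t| ≤ K2 * X0 := by
      have : (I * ((y - t : ℝ) : ℂ)).re = 0 := by simp
      rw [this, mul_zero, zero_add]
      have : |y - t| ≤ X0 := abs_le.2 hy
      gcongr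
    gcongr
  have hly : Real.log y ≤ Real.log t + 1 := by
    have h5 : y ≤ Real.exp 1 * t := by
      have := Real.exp_one_gt_d9
      nlinarith [hy.2]
    have h6 := Real.log_le_log hy0 h5
    rw [Real.log_mul (Real.exp_ne_zero _) ht0.ne', Real.log_exp] at h6
    linarith
  have hly0 : 1 / 2 ≤ Real.log y := log_ge_half hy2
  have hlt0 : 1 / 2 ≤ Real.log t := log_ge_half (by linarith)
  have hlD : 2 * D ≤ Real.log t := by
    have := Real.log_le_log (Real.exp_pos _) g4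
    rwa [Real.log_exp] at this
  obtain ⟨ℓ, hℓ⟩ : ∃ ℓ : ℝ, ℓ = Real.log t := ⟨_, rfl⟩
  obtain ⟨m, hm⟩ : ∃ m : ℝ, m = Real.log y := ⟨_, rfl⟩
  rw [← hℓ] at hτK hly hlt0 hlD ⊢
  rw [← hm] at hb hly hly0
  have hκ0 : 0 < κ := by linarith
  have hD0 : 0 ≤ D := by
    have : 0 ≤ Real.log 4 := Real.log_nonneg (by norm_num)
    rw [hD]
    positivity
  have hpre : 2 * Real.exp (K * m) + 2 ≤ Real.exp (Real.log 4 + K * m) := by
    rw [Real.exp_add, Real.exp_log (by norm_num)]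
    have : 1 ≤ Real.exp (K * m) := Real.one_le_exp (by positivity)
    linarith
  have hE1 : (κ * m + K) * |z.re| ≤ κ * ℓ * |z.re| + (κ + K) * X0 := by
    calc (κ * m + K) * |z.re| ≤ (κ * (ℓ + 1) + K) * |z.re| := by gcongr
      _ = κ * ℓ * |z.re| + (κ + K) * |z.re| := by ring
      _ ≤ _ := by gcongr
  have hE2 : τ * (κ * m + K) ^ 2 ≤ κ * K0 * (κ * ℓ) + 2 * κ * K0 * (κ + K) + (κ + K) ^ 2 := by
    have h5 : (κ * m + K) ^ 2 ≤ (κ * ℓ + (κ + K)) ^ 2 := by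
      apply pow_le_pow_left₀ (by positivity)
      have := mul_le_mul_of_nonneg_left hly hκ0.le
      linarith
    calc τ * (κ * m + K) ^ 2 ≤ τ * (κ * ℓ + (κ + K)) ^ 2 := by gcongr
      _ = (τ * ℓ) * (κ ^ 2 * ℓ) + (τ * ℓ) * (2 * κ * (κ + K)) + τ * (κ + K) ^ 2 := by ring
      _ ≤ K0 * (κ ^ 2 * ℓ) + K0 * (2 * κ * (κ + K)) + 1 * (κ + K) ^ 2 := by
          gcongr
          linarith
      _ = _ := by ring
  refine hb.trans ?_
  calc (2 * Real.exp (K * m) + 2) * ‖H (I * y)‖ * Real.exp ((κ * m + K) * |z.re| + τ * (κ * m + K) ^ 2)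
      ≤ Real.exp (Real.log 4 + K * m) * (‖H (I * t)‖ * Real.exp (K2 * X0)) *
        Real.exp ((κ * ℓ * |z.re| + (κ + K) * X0) +
          (κ * K0 * (κ * ℓ) + 2 * κ * K0 * (κ + K) + (κ + K) ^ 2)) := by
        gcongr
    _ = ‖H (I * t)‖ * Real.exp ((Real.log 4 + K * m) + K2 * X0 +
        ((κ * ℓ * |z.re| + (κ + K) * X0) +
          (κ * K0 * (κ * ℓ) + 2 * κ * K0 * (κ + K) + (κ + K) ^ 2))) := by
        rw [Real.exp_add (Real.log 4 + K * m + K2 * X0),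
          Real.exp_add (Real.log 4 + K * m)]
        ring
    _ ≤ ‖H (I * t)‖ * Real.exp (κ * ℓ * (|z.re| + (2 * K + κ * K0 + 1))) := by
        apply mul_le_mul_of_nonneg_left _ (norm_nonneg _)
        apply Real.exp_le_exp.2
        have e1 : K * m ≤ K * (ℓ + 1) := by gcongr
        have e2 : K * ℓ ≤ κ * ℓ * (2 * K) := by
          have : 0 ≤ K * ℓ := by positivity
          nlinarith
        have e3 : D ≤ κ * ℓ := by nlinarith
        rw [hD] at e3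
        nlinarith

end Pool.Agent.Y67.GL
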