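import Pool.Agent.Y67.GL.A2

set_option autoImplicit false

/-!
# GD2, task TOTH, third part: the heat flow from below
-/

namespace Pool.Agent.Y67.GL

open Complex Filter Topology MeasureTheory Set Metric
open scoped ComplexConjugate
open Pool.Agent.Y671.GL
open Pool.Agent.Y412.GL.HSZ (gamH seg_le hsz)
open Pool.Agent.W670.SD (gz gr gh two_sqrt_le v_ge pow74 eq_pt)
open Pool.Agent.W169.HF (heat Slow)

variable {κ : ℝ} {H X Z : ℂ → ℂ}

lemma hcomb (hκ : 1 / 2 ≤ κ) (hC : CG κ H X Z) : ∃ K T0 : ℝ, 1 ≤ K ∧ 2 ≤ T0 ∧ ∀ t : ℝ, T0 ≤ t →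
    (∀ s : ℝ, |s| ≤ t / 16 → ‖X (I * t + (s : ℂ))‖ ≤ Real.exp (K * Real.log t) * ‖H (I * t)‖ *
      Real.exp ((κ * Real.log t + K) * |s|)) ∧
    (∀ s : ℝ, t / 16 ≤ |s| → ‖X (I * t + (s : ℂ))‖ ≤ ‖H (I * t)‖ * Real.exp (K * |s| ^ (7 / 4 : ℝ))) ∧
    (∀ u : ℂ, ‖u‖ ≤ t / 8 →
    1 ≤ u.re → X (I * t + u) ≠ 0 ∧ ‖logDeriv X (I * t + u) - ((κ * Real.log t : ℝ) : ℂ)‖ ≤ K ∧
    Real.exp (κ * Real.log t * u.re - K * ‖u‖ - K) * ‖H (I * t)‖ ≤ ‖X (I * t + u)‖) := by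
  obtain ⟨K1, T1, hK1, hT1, h1⟩ := xbd hκ hC
  obtain ⟨K2, T2, hK2, hT2, h2⟩ := xld hC
  refine ⟨max K1 K2, max T1 T2, hK1.trans (le_max_left _ _), hT1.trans (le_max_left _ _), fun t ht => ?_⟩
  have ht1 : T1 ≤ t := (le_max_left _ _).trans ht
  have ht2 : T2 ≤ t := (le_max_right _ _).trans ht
  have hlt : 1 / 2 ≤ Real.log t := log_ge_half (by linarith)
  have m1 : K1 ≤ max K1 K2 := le_max_left _ _
  have m2 : K2 ≤ max K1 K2 := le_max_right _ _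
  refine ⟨fun s hs => ((h1 t s ht1).1 hs).trans (by gcongr), fun s hs => ((h1 t s ht1).2 hs).trans (by gcongr),
    fun u hu hur => ?_⟩
  obtain ⟨a1, a2, a3⟩ := h2 t u ht2 hu hur
  refine ⟨a1, a2.trans m2, le_trans ?_ a3⟩
  gcongr

/-- the pointwise comparison with the main term -/
lemma hpt2 (hκ : 1 / 2 ≤ κ) (hC : CG κ H X Z) : ∃ K : ℝ, 1 ≤ K ∧ ∀ u : ℝ, 4 ≤ u → ∃ T0 : ℝ, 2 ≤ T0 ∧
    ∀ t : ℝ, T0 ≤ t → ∃ W : ℂ, ‖W - ((κ * Real.log t : ℝ) : ℂ)‖ ≤ K ∧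
      Real.exp (κ * Real.log t * u - K * u - K) * ‖H (I * t)‖ ≤ ‖X (I * t + (u : ℂ))‖ ∧
      ∀ τ : ℝ, 0 ≤ τ → τ ≤ 1 / 8 → ∀ v : ℝ,
        ‖X (I * t + (u : ℂ) + ((2 * Real.sqrt τ * v : ℝ) : ℂ)) -
          X (I * t + (u : ℂ)) * cexp (W * ((2 * Real.sqrt τ * v : ℝ) : ℂ))‖ ≤
        ‖X (I * t + (u : ℂ))‖ * (16 * K / u + 2 * Real.exp (-(u / 4))) *
          (Real.exp ((W.re + (2 * K + 1)) * (2 * Real.sqrt τ * v)) +
            Real.exp ((W.re - (2 * K + 1)) * (2 * Real.sqrt τ * v))) +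
        Real.exp (K * Real.log t) * ‖H (I * t)‖ *
          Real.exp (-(3 * (κ * Real.log t + K)) * (2 * Real.sqrt τ * v)) +
        ‖H (I * t)‖ * Real.exp (v ^ 2 / 2) := by
  obtain ⟨K, T0, hK, hT0, hh⟩ := hcomb hκ hC
  refine ⟨K, hK, fun u hu => ⟨max T0 (max (16 * (8 * K) ^ 4) (32 * u)), le_max_of_le_left hT0, ?_⟩⟩
  intro t ht
  have ht1 : T0 ≤ t := (le_max_left _ _).trans ht
  have ht2 : 16 * (8 * K) ^ 4 ≤ t := (le_max_left _ _).trans ((le_max_right _ _).trans ht)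
  have ht3 : 32 * u ≤ t := (le_max_right _ _).trans ((le_max_right _ _).trans ht)
  obtain ⟨c1, c2, c3⟩ := hh t ht1
  have hlt : 1 / 2 ≤ Real.log t := log_ge_half (by linarith)
  have hu0 : 0 < u := by linarith
  have nu : ‖(u : ℂ)‖ = u := by rw [Complex.norm_real, Real.norm_of_nonneg hu0.le]
  obtain ⟨d1, d2, d3⟩ := c3 (u : ℂ) (by rw [nu]; linarith) (by rw [Complex.ofReal_re]; linarith)
  rw [nu, Complex.ofReal_re] at d3
  refine ⟨logDeriv X (I * t + (u : ℂ)), d2, d3, fun τ hτ0 hτ1 v => ?_⟩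
  obtain ⟨s, hs⟩ : ∃ s : ℝ, s = 2 * Real.sqrt τ * v := ⟨_, rfl⟩
  have hvg := v_ge (v := v) (x := u) (X0 := u) hτ1 (abs_of_pos hu0).le
  rw [← hs] at hvg ⊢
  obtain ⟨z0, hz0⟩ : ∃ z0 : ℂ, z0 = I * t + (u : ℂ) := ⟨_, rfl⟩
  obtain ⟨W, hW⟩ : ∃ W : ℂ, W = logDeriv X z0 := ⟨_, rfl⟩
  rw [← hz0] at d1 d2 d3 ⊢
  rw [← hW] at d2 ⊢
  obtain ⟨L, hL⟩ : ∃ L : ℝ, L = κ * Real.log t := ⟨_, rfl⟩
  obtain ⟨N, hN⟩ : ∃ N : ℝ, N = ‖H (I * t)‖ := ⟨_, rfl⟩
  obtain ⟨Q, hQ⟩ : ∃ Q : ℝ, Q = ‖X z0‖ := ⟨_, rfl⟩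
  obtain ⟨P, hP⟩ : ∃ P : ℝ, P = Real.exp (K * Real.log t) := ⟨_, rfl⟩
  obtain ⟨β, hβ⟩ : ∃ β : ℝ, β = W.re := ⟨_, rfl⟩
  have hN0 : 0 ≤ N := by rw [hN]; exact norm_nonneg _
  have hQ0 : 0 ≤ Q := by rw [hQ]; exact norm_nonneg _
  have hP0 : 0 ≤ P := by rw [hP]; positivity
  have hL0 : 0 < L := by rw [hL]; positivity
  rw [← hL, ← hN, ← hP] at c1
  rw [← hN] at c2
  rw [← hL] at c3 d2 ⊢
  rw [← hN, ← hQ, ← hP, ← hβ]
  have hβ1 : |β - L| ≤ K := by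
    have := (Complex.abs_re_le_norm _).trans d2
    rwa [Complex.sub_re, Complex.ofReal_re, ← hβ] at this
  rw [abs_le] at hβ1
  have hnE : ‖X z0 * cexp (W * (s : ℂ))‖ = Q * Real.exp (β * s) := by
    rw [norm_mul, Complex.norm_exp, ← hQ]
    congr 2
    rw [Complex.mul_re, Complex.ofReal_re, Complex.ofReal_im, ← hβ]
    ring
  have hz0s : z0 + (s : ℂ) = I * t + ((u + s : ℝ) : ℂ) := by rw [hz0]; push_cast; ring
  obtain ⟨a, ha⟩ : ∃ a : ℝ, a = 2 * K + 1 := ⟨_, rfl⟩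
  rw [← ha]
  obtain ⟨A, hA⟩ : ∃ A : ℝ, A = Real.exp ((β + a) * s) := ⟨_, rfl⟩
  obtain ⟨B, hB⟩ : ∃ B : ℝ, B = Real.exp ((β - a) * s) := ⟨_, rfl⟩
  have hA0 : 0 < A := by rw [hA]; positivity
  have hB0 : 0 < B := by rw [hB]; positivity
  rw [← hA, ← hB]
  obtain ⟨e, he⟩ : ∃ e : ℝ, e = Real.exp (-(u / 4)) := ⟨_, rfl⟩
  have he0 : 0 < e := by rw [he]; positivity
  rw [← he]
  have p2 : 0 ≤ P * N * Real.exp (-(3 * (L + K)) * s) := by positivity
  have p3 : 0 ≤ N * Real.exp (v ^ 2 / 2) := by positivity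
  have hKu : 0 ≤ 16 * K / u := by positivity
  have hfar : t / 16 ≤ |u + s| → ‖X (z0 + (s : ℂ))‖ ≤ N * Real.exp (v ^ 2 / 2) := by
    intro hc
    rw [hz0s]
    refine (c2 (u + s) hc).trans ?_
    have h9 : K * |u + s| ^ (7 / 4 : ℝ) ≤ v ^ 2 / 2 :=
      (pow74 hK (by linarith)).trans (hvg (by linarith))
    gcongr
  rcases le_or_gt |s| (u / 4) with h1 | h1
  · -- the central part
    have hball : ∀ z ∈ ball z0 (u / 2), X z ≠ 0 ∧ ‖logDeriv X z - ((L : ℝ) : ℂ)‖ ≤ K := by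
      intro z hz
      rw [mem_ball, dist_eq_norm] at hz
      have e1 : z = I * t + ((z - z0) + (u : ℂ)) := by rw [hz0]; ring
      have e2 := c3 ((z - z0) + (u : ℂ)) (by
        refine (norm_add_le _ _).trans ?_
        rw [nu]
        linarith) (by
        have := (abs_le.1 ((Complex.abs_re_le_norm (z - z0)).trans hz.le)).1
        rw [Complex.add_re, Complex.ofReal_re]
        linarith)
      rw [← e1] at e2
      exact ⟨e2.1, e2.2.1⟩
    have hex := expand hC.cf.diff (z0 := z0) (r := u / 2) (K := K) (lam := ((L : ℝ) : ℂ)) (by positivity) hball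
      (s := (s : ℂ)) (by rw [Complex.norm_real, Real.norm_eq_abs]; linarith)
    have e3 : (W * (s : ℂ)).re = β * s := by
      rw [Complex.mul_re, Complex.ofReal_re, Complex.ofReal_im, ← hβ]
      ring
    rw [← hW, ← hQ, e3, Complex.norm_real, Real.norm_eq_abs] at hex
    refine hex.trans ?_
    have h2 : 4 * K / (u / 2) * |s| ^ 2 ≤ 2 * K * |s| := by
      have : 4 * K / (u / 2) = 8 * K / u := by field_simp; ring
      rw [this, div_mul_eq_mul_div, div_le_iff₀ hu0]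
      have h0 := abs_nonneg s
      have : 0 ≤ K * |s| := by positivity
      nlinarith
    have h3 : |s| ^ 2 ≤ 2 * Real.exp |s| := by
      have := Real.quadratic_le_exp_of_nonneg (abs_nonneg s)
      have h0 := abs_nonneg s
      linarith
    have h4 : 4 * K / (u / 2) * |s| ^ 2 * Real.exp (4 * K / (u / 2) * |s| ^ 2) ≤
        16 * K / u * Real.exp (a * |s|) := by
      calc 4 * K / (u / 2) * |s| ^ 2 * Real.exp (4 * K / (u / 2) * |s| ^ 2)
          ≤ 4 * K / (u / 2) * (2 * Real.exp |s|) * Real.exp (2 * K * |s|) := by gcongr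
        _ = 16 * K / u * (Real.exp |s| * Real.exp (2 * K * |s|)) := by field_simp; ring
        _ = 16 * K / u * Real.exp (a * |s|) := by
            rw [← Real.exp_add, ha]
            congr 2
            ring
    have h5 : Real.exp (β * s) * Real.exp (a * |s|) ≤ A + B := by
      rw [← Real.exp_add]
      rcases abs_cases s with ⟨h6, -⟩ | ⟨h6, -⟩
      · rw [h6, show β * s + a * s = (β + a) * s by ring, ← hA]
        linarith
      · rw [h6, show β * s + a * -s = (β - a) * s by ring, ← hB]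
        linarith
    calc Q * Real.exp (β * s) * (4 * K / (u / 2) * |s| ^ 2 * Real.exp (4 * K / (u / 2) * |s| ^ 2))
        ≤ Q * Real.exp (β * s) * (16 * K / u * Real.exp (a * |s|)) := by gcongr
      _ = Q * (16 * K / u) * (Real.exp (β * s) * Real.exp (a * |s|)) := by ring
      _ ≤ Q * (16 * K / u) * (A + B) := by gcongr
      _ ≤ Q * (16 * K / u + 2 * e) * (A + B) := by
          gcongr
          linarith
      _ ≤ _ := by linarith
  have hQe : 0 ≤ Q * (16 * K / u) * (A + B) := by positivity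
  rcases le_total 0 s with h2 | h2
  · -- to the right
    rw [abs_of_nonneg h2] at h1
    have hb1 : Real.exp (β * s) ≤ e * A := by
      rw [he, hA, ← Real.exp_add]
      apply Real.exp_le_exp.2
      rw [ha]
      nlinarith
    have hb2 : Real.exp ((L + K) * s) ≤ e * A := by
      rw [he, hA, ← Real.exp_add]
      apply Real.exp_le_exp.2
      rw [ha]
      nlinarith [hβ1.1]
    have hb3 : ‖X (z0 + (s : ℂ))‖ ≤ Q * (e * A) + N * Real.exp (v ^ 2 / 2) := by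
      rcases le_total |u + s| (t / 16) with hc | hc
      · rw [abs_of_nonneg (by linarith)] at hc
        have := seg_le (H := X) (a := z0) (u := (s : ℂ)) (lam := L) (K := K) (by
          intro x hx0 hx1
          have hxs : 0 ≤ x * s := by positivity
          have hxs1 : x * s ≤ 1 * s := by gcongr
          have e1 : z0 + (x : ℂ) * (s : ℂ) = I * t + ((u + x * s : ℝ) : ℂ) := by
            rw [hz0]; push_cast; ring
          rw [e1]
          have e2 := c3 ((u + x * s : ℝ) : ℂ) (by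
            rw [Complex.norm_real, Real.norm_of_nonneg (by linarith)]
            linarith) (by rw [Complex.ofReal_re]; linarith)
          exact ⟨hC.cf.diff _, e2.1, e2.2.1⟩)
        rw [Complex.ofReal_re, Complex.norm_real, Real.norm_of_nonneg h2, ← hQ,
          show L * s + K * s = (L + K) * s by ring] at this
        calc ‖X (z0 + (s : ℂ))‖ ≤ Real.exp ((L + K) * s) * Q := this
          _ ≤ (e * A) * Q := by gcongr
          _ = Q * (e * A) := by ring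
          _ ≤ _ := by linarith
      · refine (hfar hc).trans ?_
        have : 0 ≤ Q * (e * A) := by positivity
        linarith
    refine (norm_sub_le _ _).trans ?_
    rw [hnE]
    have hb4 : Q * Real.exp (β * s) ≤ Q * (e * A) := by gcongr
    have hb5 : 0 ≤ Q * (2 * e) * B := by positivity
    have hb6 : Q * (16 * K / u + 2 * e) * (A + B) = Q * (16 * K / u) * (A + B) +
      (Q * (e * A) + Q * (e * A)) + Q * (2 * e) * B := by ring
    linarith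
  · -- to the left
    rw [abs_of_nonpos h2] at h1
    have hb1 : Real.exp (β * s) ≤ e * B := by
      rw [he, hB, ← Real.exp_add]
      apply Real.exp_le_exp.2
      rw [ha]
      nlinarith
    have hb3 : ‖X (z0 + (s : ℂ))‖ ≤ P * N * Real.exp (-(3 * (L + K)) * s) + N * Real.exp (v ^ 2 / 2) := by
      rcases le_total |u + s| (t / 16) with hc | hc
      · have h3 : |u + s| ≤ -(3 * s) := by
          rw [abs_le]
          constructor <;> linarith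
        rw [hz0s]
        refine (c1 (u + s) hc).trans ?_
        have h4 : (L + K) * |u + s| ≤ -(3 * (L + K)) * s := by
          have := mul_le_mul_of_nonneg_left h3 (by linarith : 0 ≤ L + K)
          linarith
        have h5 : P * N * Real.exp ((L + K) * |u + s|) ≤ P * N * Real.exp (-(3 * (L + K)) * s) := by
          gcongr
        linarith
      · refine (hfar hc).trans ?_
        linarith
    refine (norm_sub_le _ _).trans ?_
    rw [hnE]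
    have hb4 : Q * Real.exp (β * s) ≤ Q * (e * B) := by gcongr
    have hb5 : 0 ≤ Q * (2 * e) * A := by positivity
    have hb7 : 0 ≤ Q * (e * B) := by positivity
    have hb6 : Q * (16 * K / u + 2 * e) * (A + B) = Q * (16 * K / u) * (A + B) +
      (Q * (e * B) + Q * (e * B)) + Q * (2 * e) * A := by ring
    linarith

/-- The heat flow against the main term. -/
lemma hlow0 (hκ : 1 / 2 ≤ κ) (hC : CG κ H X Z)
    (hint : ∀ (τ : ℝ) (z : ℂ), 0 ≤ τ →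
      Integrable (fun v : ℝ => ((Real.exp (-v ^ 2) : ℝ) : ℂ) * X (z + ((2 * Real.sqrt τ * v : ℝ) : ℂ)))) :
    ∃ K : ℝ, 1 ≤ K ∧ ∀ u : ℝ, 4 ≤ u → ∃ T0 : ℝ, 2 ≤ T0 ∧
    ∀ t : ℝ, T0 ≤ t → ∃ W : ℂ, ‖W - ((κ * Real.log t : ℝ) : ℂ)‖ ≤ K ∧
      Real.exp (κ * Real.log t * u - K * u - K) * ‖H (I * t)‖ ≤ ‖X (I * t + (u : ℂ))‖ ∧
      ∀ τ : ℝ, 0 ≤ τ → τ ≤ 1 / 8 →
        ‖heat τ X (I * t + (u : ℂ)) - X (I * t + (u : ℂ)) * cexp (τ * W ^ 2)‖ ≤
        ‖X (I * t + (u : ℂ))‖ * (16 * K / u + 2 * Real.exp (-(u / 4))) *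
          (Real.exp (τ * (W.re + (2 * K + 1)) ^ 2) + Real.exp (τ * (W.re - (2 * K + 1)) ^ 2)) +
        Real.exp (K * Real.log t) * ‖H (I * t)‖ * Real.exp (9 * (τ * (κ * Real.log t + K) ^ 2)) +
        2 * ‖H (I * t)‖ := by
  obtain ⟨K, hK, h⟩ := hpt2 hκ hC
  refine ⟨K, hK, fun u hu => ?_⟩
  obtain ⟨T0, hT0, h⟩ := h u hu
  refine ⟨T0, hT0, fun t ht => ?_⟩
  obtain ⟨W, h1, h2, h3⟩ := h t ht
  refine ⟨W, h1, h2, fun τ hτ0 hτ1 => ?_⟩
  replace h3 := h3 τ hτ0 hτ1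
  obtain ⟨z0, hz0⟩ : ∃ z0 : ℂ, z0 = I * t + (u : ℂ) := ⟨_, rfl⟩
  obtain ⟨L, hL⟩ : ∃ L : ℝ, L = κ * Real.log t := ⟨_, rfl⟩
  obtain ⟨N, hN⟩ : ∃ N : ℝ, N = ‖H (I * t)‖ := ⟨_, rfl⟩
  obtain ⟨P, hP⟩ : ∃ P : ℝ, P = Real.exp (K * Real.log t) := ⟨_, rfl⟩
  obtain ⟨a, ha⟩ : ∃ a : ℝ, a = 2 * K + 1 := ⟨_, rfl⟩
  have hN0 : 0 ≤ N := by rw [hN]; exact norm_nonneg _
  simp only [← hz0, ← hL, ← hN, ← hP, ← ha] at h3 ⊢
  obtain ⟨G, hG⟩ : ∃ G : ℝ, G = ‖X z0‖ * (16 * K / u + 2 * Real.exp (-(u / 4))) := ⟨_, rfl⟩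
  rw [← hG] at h3 ⊢
  obtain ⟨c1, c2⟩ := gz hτ0 W 0
  obtain ⟨i1, j1⟩ := gr hτ0 (W.re + a) 0
  obtain ⟨i2, j2⟩ := gr hτ0 (W.re - a) 0
  obtain ⟨i3, j3⟩ := gr hτ0 (-(3 * (L + K))) 0
  obtain ⟨i4, j4⟩ := gh
  simp only [zero_add, mul_zero, Complex.ofReal_zero] at c1 c2 i1 j1 i2 j2 i3 j3
  have hpi : 0 < Real.sqrt Real.pi := Real.sqrt_pos.2 Real.pi_pos
  have hpiC : ((Real.sqrt Real.pi : ℝ) : ℂ) ≠ 0 := by exact_mod_cast hpi.ne'
  have hi := hint τ z0 hτ0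
  have hdiff : ((Real.sqrt Real.pi : ℝ) : ℂ) * (heat τ X z0 - X z0 * cexp (τ * W ^ 2)) =
      ∫ v : ℝ, (((Real.exp (-v ^ 2) : ℝ) : ℂ) * X (z0 + ((2 * Real.sqrt τ * v : ℝ) : ℂ)) -
        X z0 * (((Real.exp (-v ^ 2) : ℝ) : ℂ) * cexp (W * ((2 * Real.sqrt τ * v : ℝ) : ℂ)))) := by
    rw [integral_sub hi (c1.const_mul _), integral_const_mul, c2]
    unfold heat
    obtain ⟨J, hJ⟩ : ∃ J : ℂ, J = ∫ v : ℝ, ((Real.exp (-v ^ 2) : ℝ) : ℂ) *
      X (z0 + ((2 * Real.sqrt τ * v : ℝ) : ℂ)) := ⟨_, rfl⟩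
    rw [← hJ, Complex.ofReal_div, Complex.ofReal_one, mul_sub, ← mul_assoc, mul_one_div_cancel hpiC,
      one_mul]
    ring
  have hpt : ∀ v : ℝ, ‖((Real.exp (-v ^ 2) : ℝ) : ℂ) * X (z0 + ((2 * Real.sqrt τ * v : ℝ) : ℂ)) -
        X z0 * (((Real.exp (-v ^ 2) : ℝ) : ℂ) * cexp (W * ((2 * Real.sqrt τ * v : ℝ) : ℂ)))‖ ≤
      G * (Real.exp (-v ^ 2) * Real.exp ((W.re + a) * (2 * Real.sqrt τ * v))) +
      G * (Real.exp (-v ^ 2) * Real.exp ((W.re - a) * (2 * Real.sqrt τ * v))) +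
      (P * N) * (Real.exp (-v ^ 2) * Real.exp (-(3 * (L + K)) * (2 * Real.sqrt τ * v))) +
      N * (Real.exp (-v ^ 2) * Real.exp (v ^ 2 / 2)) := by
    intro v
    have e1 : ((Real.exp (-v ^ 2) : ℝ) : ℂ) * X (z0 + ((2 * Real.sqrt τ * v : ℝ) : ℂ)) -
        X z0 * (((Real.exp (-v ^ 2) : ℝ) : ℂ) * cexp (W * ((2 * Real.sqrt τ * v : ℝ) : ℂ))) =
        ((Real.exp (-v ^ 2) : ℝ) : ℂ) * (X (z0 + ((2 * Real.sqrt τ * v : ℝ) : ℂ)) -
        X z0 * cexp (W * ((2 * Real.sqrt τ * v : ℝ) : ℂ))) := by ring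
    rw [e1, norm_mul, Complex.norm_real, Real.norm_of_nonneg (Real.exp_pos _).le]
    refine (mul_le_mul_of_nonneg_left (h3 v) (Real.exp_pos (-v ^ 2)).le).trans (le_of_eq ?_)
    ring
  have hI12 : Integrable (fun v : ℝ => G * (Real.exp (-v ^ 2) * Real.exp ((W.re + a) * (2 * Real.sqrt τ * v))) +
      G * (Real.exp (-v ^ 2) * Real.exp ((W.re - a) * (2 * Real.sqrt τ * v)))) :=
    (i1.const_mul _).add (i2.const_mul _)
  have hI123 : Integrable (fun v : ℝ => G * (Real.exp (-v ^ 2) * Real.exp ((W.re + a) * (2 * Real.sqrt τ * v))) +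
      G * (Real.exp (-v ^ 2) * Real.exp ((W.re - a) * (2 * Real.sqrt τ * v))) +
      (P * N) * (Real.exp (-v ^ 2) * Real.exp (-(3 * (L + K)) * (2 * Real.sqrt τ * v)))) :=
    hI12.add (i3.const_mul _)
  have hI := hI123.add (i4.const_mul N)
  have hfin := norm_integral_le_of_norm_le hI (Eventually.of_forall hpt)
  have hval : ∫ v : ℝ, ((fun v : ℝ => G * (Real.exp (-v ^ 2) * Real.exp ((W.re + a) * (2 * Real.sqrt τ * v))) +
      G * (Real.exp (-v ^ 2) * Real.exp ((W.re - a) * (2 * Real.sqrt τ * v))) +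
      (P * N) * (Real.exp (-v ^ 2) * Real.exp (-(3 * (L + K)) * (2 * Real.sqrt τ * v)))) +
      (fun v : ℝ => N * (Real.exp (-v ^ 2) * Real.exp (v ^ 2 / 2)))) v =
      G * (Real.sqrt Real.pi * Real.exp (τ * (W.re + a) ^ 2)) +
      G * (Real.sqrt Real.pi * Real.exp (τ * (W.re - a) ^ 2)) +
      (P * N) * (Real.sqrt Real.pi * Real.exp (τ * (-(3 * (L + K))) ^ 2)) +
      N * ∫ v : ℝ, Real.exp (-v ^ 2) * Real.exp (v ^ 2 / 2) := by
    rw [integral_add' hI123 (i4.const_mul _), integral_add hI12 (i3.const_mul _),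
      integral_add (i1.const_mul _) (i2.const_mul _),
      integral_const_mul, integral_const_mul, integral_const_mul, integral_const_mul, j1, j2, j3]
  have hfin' := hfin.trans_eq hval
  rw [← hdiff, norm_mul, Complex.norm_real, Real.norm_of_nonneg hpi.le] at hfin'
  refine le_of_mul_le_mul_left (hfin'.trans ?_) hpi
  have b4 : N * ∫ v : ℝ, Real.exp (-v ^ 2) * Real.exp (v ^ 2 / 2) ≤ N * (Real.sqrt Real.pi * 2) := by
    gcongr
  have b5 : τ * (-(3 * (L + K))) ^ 2 = 9 * (τ * (L + K) ^ 2) := by ring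
  rw [b5]
  refine (add_le_add_right b4 _).trans (le_of_eq ?_)
  ring

end Pool.Agent.Y67.GL
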