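import Pool.Agent.Y67.GL.A3
import Pool.Agent.Y275.GL.HHT
import Pool.Agent.W670.SD.Cx

set_option autoImplicit false

/-!
# GD2, task TOTH: the heat flow has many zeros in every dyadic window
-/

namespace Pool.Agent.Y67.GL

open Complex Filter Topology MeasureTheory Set Metric
open scoped ComplexConjugate
open Pool.Agent.Y671.GL
open Pool.Agent.Y412.GL.HSZ (gamH seg_le hsz)
open Pool.Agent.W169.HF (heat Slow)

variable {κ : ℝ} {H X Z : ℂ → ℂ}

/-- The lower bound. -/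
theorem lower (hκ : 1 / 2 ≤ κ) (hC : CG κ H X Z)
    (hint : ∀ (τ : ℝ) (z : ℂ), 0 ≤ τ →
      Integrable (fun v : ℝ => ((Real.exp (-v ^ 2) : ℝ) : ℂ) * X (z + ((2 * Real.sqrt τ * v : ℝ) : ℂ))))
    {K0 : ℝ} (hK0 : 1 ≤ K0) : ∃ U0 : ℝ, ∀ u : ℝ, U0 ≤ u →
    ∃ T0 : ℝ, 2 ≤ T0 ∧ ∀ t : ℝ, T0 ≤ t → ∀ τ : ℝ, 0 ≤ τ → τ ≤ 1 / 8 → τ * Real.log t ≤ K0 →
      ‖H (I * t)‖ * Real.exp (κ * Real.log t * (u - 1)) ≤ ‖heat τ X (I * t + (u : ℂ))‖ := by
  obtain ⟨K, hK, h⟩ := hlow0 hκ hC hint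
  have hκ0 : 0 < κ := by linarith
  obtain ⟨a, ha⟩ : ∃ a : ℝ, a = 2 * K + 1 := ⟨_, rfl⟩
  obtain ⟨M, hM⟩ : ∃ M : ℝ, M = 2 * a * (κ * K0 + K) + a ^ 2 := ⟨_, rfl⟩
  obtain ⟨U1, hU1⟩ : ∃ U1 : ℝ, ∀ u : ℝ, U1 ≤ u →
      (16 * K / u + 2 * Real.exp (-(u / 4))) * (2 * Real.exp M) ≤ Real.exp (-(K ^ 2 / 8)) / 2 := by
    have t1 : Tendsto (fun u : ℝ => 16 * K / u) atTop (𝓝 0) := tendsto_const_nhds.div_atTop tendsto_id
    have t2 : Tendsto (fun u : ℝ => Real.exp (-(u / 4))) atTop (𝓝 0) := by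
      apply Real.tendsto_exp_neg_atTop_nhds_zero.comp
      exact tendsto_id.atTop_div_const (by norm_num)
    have t3 : Tendsto (fun u : ℝ => (16 * K / u + 2 * Real.exp (-(u / 4))) * (2 * Real.exp M)) atTop
        (𝓝 ((0 + 2 * 0) * (2 * Real.exp M))) := (t1.add (t2.const_mul 2)).mul_const _
    rw [mul_zero, add_zero, zero_mul] at t3
    have := t3.eventually_le_const (u := Real.exp (-(K ^ 2 / 8)) / 2) (by positivity)
    exact eventually_atTop.1 this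
  refine ⟨max 4 (max U1 (2 * K + 9 * κ * K0 + 1)), fun u hu => ?_⟩
  have hu4 : 4 ≤ u := (le_max_left _ _).trans hu
  have huU : U1 ≤ u := (le_max_left _ _).trans ((le_max_right _ _).trans hu)
  have huB : 2 * K + 9 * κ * K0 + 1 ≤ u := (le_max_right _ _).trans ((le_max_right _ _).trans hu)
  obtain ⟨T1, hT1, h⟩ := h u hu4
  obtain ⟨C3, hC3⟩ : ∃ C3 : ℝ, C3 = 18 * κ * K0 * K + 2 * K ^ 2 := ⟨_, rfl⟩
  obtain ⟨C4, hC4⟩ : ∃ C4 : ℝ, C4 = K * u + K + K ^ 2 / 8 + 1 := ⟨_, rfl⟩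
  refine ⟨max T1 (Real.exp (2 * (C4 + C3 + 3))), le_max_of_le_left hT1, fun t ht τ hτ0 hτ1 hτK => ?_⟩
  have g1 : T1 ≤ t := (le_max_left _ _).trans ht
  have g2 : Real.exp (2 * (C4 + C3 + 3)) ≤ t := (le_max_right _ _).trans ht
  obtain ⟨W, h1, h2, h3⟩ := h t g1
  replace h3 := h3 τ hτ0 hτ1
  have ht0 : 0 < t := by linarith
  have hℓ2 : 2 * (C4 + C3 + 3) ≤ Real.log t := by
    have := Real.log_le_log (Real.exp_pos _) g2
    rwa [Real.log_exp] at this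
  obtain ⟨ℓ, hℓ⟩ : ∃ ℓ : ℝ, ℓ = Real.log t := ⟨_, rfl⟩
  obtain ⟨L, hL⟩ : ∃ L : ℝ, L = κ * ℓ := ⟨_, rfl⟩
  obtain ⟨z0, hz0⟩ : ∃ z0 : ℂ, z0 = I * t + (u : ℂ) := ⟨_, rfl⟩
  obtain ⟨N, hN⟩ : ∃ N : ℝ, N = ‖H (I * t)‖ := ⟨_, rfl⟩
  obtain ⟨Q, hQ⟩ : ∃ Q : ℝ, Q = ‖X z0‖ := ⟨_, rfl⟩
  obtain ⟨β, hβ⟩ : ∃ β : ℝ, β = W.re := ⟨_, rfl⟩
  obtain ⟨γ, hγ⟩ : ∃ γ : ℝ, γ = W.im := ⟨_, rfl⟩
  have hN0 : 0 ≤ N := by rw [hN]; exact norm_nonneg _
  have hQ0 : 0 ≤ Q := by rw [hQ]; exact norm_nonneg _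
  rw [← hℓ] at hτK hℓ2 h1 h2 h3 ⊢
  rw [← hL] at h1 h2 h3 ⊢
  rw [← hz0, ← hN, ← hβ, ← ha] at h3
  rw [← hz0, ← hN] at h2
  rw [← hz0, ← hN]
  rw [← hQ] at h2 h3
  have hC30 : 0 ≤ C3 := by rw [hC3]; positivity
  have hC40 : K ≤ C4 := by rw [hC4]; nlinarith [sq_nonneg K]
  have hℓ0 : 0 ≤ ℓ := by linarith
  have hLb : C4 + C3 + 3 ≤ L := by
    rw [hL]
    have : 1 / 2 * ℓ ≤ κ * ℓ := by gcongr
    linarith
  have hβ1 : |β - L| ≤ K := by
    have := (Complex.abs_re_le_norm _).trans h1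
    rwa [Complex.sub_re, Complex.ofReal_re, ← hβ] at this
  have hγ1 : |γ| ≤ K := by
    have := (Complex.abs_im_le_norm _).trans h1
    rwa [Complex.sub_im, Complex.ofReal_im, ← hγ, sub_zero] at this
  rw [abs_le] at hβ1
  have hγ2 : γ ^ 2 ≤ K ^ 2 := by rw [← sq_abs]; exact pow_le_pow_left₀ (abs_nonneg _) hγ1 2
  have hβ0 : 0 ≤ β := by linarith [hβ1.1]
  have ha0 : 0 ≤ a := by rw [ha]; linarith
  have hτβ : τ * β ≤ κ * K0 + K := by
    calc τ * β ≤ τ * (L + K) := by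
          gcongr
          linarith [hβ1.2]
      _ = κ * (τ * ℓ) + τ * K := by rw [hL]; ring
      _ ≤ κ * K0 + 1 * K := by
          gcongr
          linarith
      _ = _ := by ring
  have hτa : τ * a ^ 2 ≤ a ^ 2 := by
    have : τ * a ^ 2 ≤ 1 * a ^ 2 := by
      gcongr
      linarith
    linarith
  have hτβ0 : 0 ≤ τ * β := by positivity
  have hq1 : τ * (β + a) ^ 2 ≤ τ * β ^ 2 + M := by
    have : τ * (β + a) ^ 2 = τ * β ^ 2 + 2 * a * (τ * β) + τ * a ^ 2 := by ring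
    rw [this, hM]
    have : 2 * a * (τ * β) ≤ 2 * a * (κ * K0 + K) := by gcongr
    linarith
  have hq2 : τ * (β - a) ^ 2 ≤ τ * β ^ 2 + M := by
    have : τ * (β - a) ^ 2 = τ * β ^ 2 - 2 * a * (τ * β) + τ * a ^ 2 := by ring
    rw [this, hM]
    have h5 : 0 ≤ 2 * a * (τ * β) := by positivity
    have : 0 ≤ 2 * a * (κ * K0 + K) := by positivity
    linarith
  obtain ⟨δ, hδ⟩ : ∃ δ : ℝ, δ = 16 * K / u + 2 * Real.exp (-(u / 4)) := ⟨_, rfl⟩
  have hδ0 : 0 ≤ δ := by rw [hδ]; positivity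
  have hU := hU1 u huU
  rw [← hδ] at hU h3
  obtain ⟨V, hV⟩ : ∃ V : ℝ, V = Real.exp (τ * β ^ 2) := ⟨_, rfl⟩
  have hV1 : 1 ≤ V := by
    rw [hV]
    exact Real.one_le_exp (by positivity)
  have hs1 : Q * δ * (Real.exp (τ * (β + a) ^ 2) + Real.exp (τ * (β - a) ^ 2)) ≤
      Q * V * (Real.exp (-(K ^ 2 / 8)) / 2) := by
    have e1 : Real.exp (τ * (β + a) ^ 2) ≤ V * Real.exp M := by
      rw [hV, ← Real.exp_add]
      exact Real.exp_le_exp.2 hq1
    have e2 : Real.exp (τ * (β - a) ^ 2) ≤ V * Real.exp M := by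
      rw [hV, ← Real.exp_add]
      exact Real.exp_le_exp.2 hq2
    calc Q * δ * (Real.exp (τ * (β + a) ^ 2) + Real.exp (τ * (β - a) ^ 2))
        ≤ Q * δ * (V * Real.exp M + V * Real.exp M) := by gcongr
      _ = Q * V * (δ * (2 * Real.exp M)) := by ring
      _ ≤ _ := by gcongr
  have hmain : Q * V * Real.exp (-(K ^ 2 / 8)) ≤ ‖X z0 * cexp (τ * W ^ 2)‖ := by
    rw [norm_mul, Complex.norm_exp, ← hQ, hV, mul_assoc, ← Real.exp_add]
    apply mul_le_mul_of_nonneg_left _ hQ0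
    apply Real.exp_le_exp.2
    have e1 : ((τ : ℂ) * W ^ 2).re = τ * (β ^ 2 - γ ^ 2) := by
      rw [Complex.re_ofReal_mul, sq W, Complex.mul_re, ← hβ, ← hγ]
      ring
    rw [e1]
    have : τ * γ ^ 2 ≤ 1 / 8 * K ^ 2 := mul_le_mul hτ1 hγ2 (by positivity) (by norm_num)
    linarith
  have htri : ‖X z0 * cexp (τ * W ^ 2)‖ ≤ ‖heat τ X z0‖ + ‖heat τ X z0 - X z0 * cexp (τ * W ^ 2)‖ := by
    have := norm_sub_le (heat τ X z0) (heat τ X z0 - X z0 * cexp (τ * W ^ 2))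
    rwa [sub_sub_cancel] at this
  -- the main term
  have hQlow : N * Real.exp (L * u - C4) ≤ Q * V * (Real.exp (-(K ^ 2 / 8)) / 2) := by
    have e1 : Real.exp (-1) ≤ 1 / 2 := by
      rw [Real.exp_neg, ← one_div]
      apply one_div_le_one_div_of_le (by norm_num)
      have := Real.exp_one_gt_d9
      linarith
    have e2 : Real.exp (L * u - C4) = Real.exp (L * u - K * u - K) * (Real.exp (-(K ^ 2 / 8)) * Real.exp (-1)) := by
      rw [← Real.exp_add, ← Real.exp_add]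
      congr 1
      rw [hC4]
      ring
    calc N * Real.exp (L * u - C4)
        = (Real.exp (L * u - K * u - K) * N) * (Real.exp (-(K ^ 2 / 8)) * Real.exp (-1)) := by
          rw [e2]; ring
      _ ≤ Q * (Real.exp (-(K ^ 2 / 8)) * (1 / 2)) := by gcongr
      _ = Q * 1 * (Real.exp (-(K ^ 2 / 8)) / 2) := by ring
      _ ≤ _ := by gcongr
  -- the error terms
  have herr : Real.exp (K * ℓ) * N * Real.exp (9 * (τ * (L + K) ^ 2)) ≤
      N * (Real.exp (L * (u - 1)) * Real.exp C3) := by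
    have e1 : K * ℓ + 9 * (τ * (L + K) ^ 2) ≤ L * (u - 1) + C3 := by
      have e2 : K * ℓ ≤ 2 * K * L := by
        rw [hL]
        have : 0 ≤ K * ℓ := by positivity
        nlinarith
      have e3 : 9 * (τ * (L + K) ^ 2) ≤ 9 * κ * K0 * L + C3 := by
        have e4 : 9 * (τ * (L + K) ^ 2) = 9 * κ * (τ * ℓ) * L + 18 * κ * (τ * ℓ) * K + 9 * τ * K ^ 2 := by
          rw [hL]; ring
        have hL0 : 0 ≤ L := by linarith
        rw [e4, hC3]
        have e5 : 9 * κ * (τ * ℓ) * L ≤ 9 * κ * K0 * L := by gcongr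
        have e6 : 18 * κ * (τ * ℓ) * K ≤ 18 * κ * K0 * K := by gcongr
        have e7 : 9 * τ * K ^ 2 ≤ 2 * K ^ 2 := by
          have : 9 * τ ≤ 2 := by linarith
          gcongr
        linarith
      have e8 : L * (2 * K + 9 * κ * K0) ≤ L * (u - 1) := by
        apply mul_le_mul_of_nonneg_left _ (by linarith)
        linarith
      linarith
    calc Real.exp (K * ℓ) * N * Real.exp (9 * (τ * (L + K) ^ 2)) =
        N * Real.exp (K * ℓ + 9 * (τ * (L + K) ^ 2)) := by rw [Real.exp_add]; ring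
      _ ≤ N * Real.exp (L * (u - 1) + C3) := by gcongr
      _ = _ := by rw [Real.exp_add]
  have hLu : 0 ≤ L * (u - 1) := by
    apply mul_nonneg <;> linarith
  have hone : 1 ≤ Real.exp (L * (u - 1)) := Real.one_le_exp hLu
  have hcmp : Real.exp (L * (u - 1)) * (Real.exp C3 + 3) ≤ Real.exp (L * u - C4) := by
    have e1 : L * u - C4 = L * (u - 1) + (L - C4) := by ring
    rw [e1, Real.exp_add]
    apply mul_le_mul_of_nonneg_left _ (Real.exp_pos _).le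
    have e2 : Real.exp (C3 + 3) ≤ Real.exp (L - C4) := Real.exp_le_exp.2 (by linarith)
    refine le_trans ?_ e2
    rw [Real.exp_add]
    have e3 : 4 ≤ Real.exp 3 := by
      have := Real.add_one_le_exp (3 : ℝ)
      linarith
    have e4 : 1 ≤ Real.exp C3 := Real.one_le_exp hC30
    nlinarith
  have hcmp' : N * (Real.exp (L * (u - 1)) * (Real.exp C3 + 3)) ≤ N * Real.exp (L * u - C4) := by
    gcongr
  have h2N : 2 * N ≤ N * (2 * Real.exp (L * (u - 1))) := by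
    have : N * 2 ≤ N * (2 * Real.exp (L * (u - 1))) := by
      apply mul_le_mul_of_nonneg_left _ hN0
      linarith
    linarith
  have hsplit : N * (Real.exp (L * (u - 1)) * (Real.exp C3 + 3)) =
      N * (Real.exp (L * (u - 1)) * Real.exp C3) + N * (2 * Real.exp (L * (u - 1))) +
      N * Real.exp (L * (u - 1)) := by ring
  have hhalf : Q * V * Real.exp (-(K ^ 2 / 8)) = Q * V * (Real.exp (-(K ^ 2 / 8)) / 2) +
      Q * V * (Real.exp (-(K ^ 2 / 8)) / 2) := by ring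
  linarith

lemma slowX (hd : Differentiable ℂ X) {K : ℝ} (hK : 0 < K)
    (h : ∀ z : ℂ, ‖X z‖ ≤ Real.exp (K * (1 + ‖z‖) ^ (3 / 2 : ℝ))) : Slow X := by
  refine ⟨hd, ?_⟩
  intro δ hδ
  -- `K x^{3/2} ≤ δ/2 x² + C`, `x = 1 + |z|`, and `x² ≤ 2 + 2 |z|²`
  obtain ⟨A, hA⟩ : ∃ A : ℝ, A = (2 * K / δ) ^ 2 := ⟨_, rfl⟩
  have hA0 : 0 ≤ A := by rw [hA]; positivity
  refine ⟨Real.exp (K * A ^ (3 / 2 : ℝ) + δ), Real.exp_pos _, ?_⟩
  intro z
  refine (h z).trans ?_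
  rw [← Real.exp_add]
  apply Real.exp_le_exp.2
  set x : ℝ := 1 + ‖z‖ with hx
  have hx1 : 1 ≤ x := by have := norm_nonneg z; linarith
  have hx0 : 0 < x := by linarith
  have h2 : K * x ^ (3 / 2 : ℝ) ≤ K * A ^ (3 / 2 : ℝ) + δ / 2 * x ^ 2 := by
    rcases le_total x A with h3 | h3
    · have h4 : x ^ (3 / 2 : ℝ) ≤ A ^ (3 / 2 : ℝ) := Real.rpow_le_rpow hx0.le h3 (by norm_num)
      have h5 : K * x ^ (3 / 2 : ℝ) ≤ K * A ^ (3 / 2 : ℝ) := by gcongr
      have h6 : 0 ≤ δ / 2 * x ^ 2 := by positivity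
      linarith
    · have h4 : 2 * K / δ ≤ x ^ (1 / 2 : ℝ) := by
        rw [← Real.sqrt_eq_rpow]
        apply Real.le_sqrt_of_sq_le
        rw [← hA]; exact h3
      have h5 : K ≤ δ / 2 * x ^ (1 / 2 : ℝ) := by
        rw [div_le_iff₀ hδ] at h4
        linarith
      have h6 : x ^ (1 / 2 : ℝ) * x ^ (3 / 2 : ℝ) = x ^ 2 := by
        rw [← Real.rpow_add hx0, ← Real.rpow_natCast]
        norm_num
      have h7 : 0 ≤ x ^ (3 / 2 : ℝ) := by positivity
      have h8 : K * x ^ (3 / 2 : ℝ) ≤ δ / 2 * x ^ (1 / 2 : ℝ) * x ^ (3 / 2 : ℝ) := by gcongr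
      have h9 : 0 ≤ K * A ^ (3 / 2 : ℝ) := by positivity
      nlinarith
  have h3 : x ^ 2 ≤ 2 + 2 * ‖z‖ ^ 2 := by
    rw [hx]
    nlinarith [sq_nonneg (1 - ‖z‖)]
  nlinarith

lemma heat_symm (hX : ∀ z : ℂ, X (-(conj z)) = conj (X z)) (τ : ℝ) (z : ℂ) :
    heat τ X (-(conj z)) = conj (heat τ X z) := by
  unfold heat
  rw [map_mul, Complex.conj_ofReal]
  congr 1
  rw [← integral_conj]
  rw [← integral_neg_eq_self (fun v : ℝ => ((Real.exp (-v ^ 2) : ℝ) : ℂ) *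
    X (-(conj z) + ((2 * Real.sqrt τ * v : ℝ) : ℂ)))]
  congr 1
  funext v
  rw [map_mul, Complex.conj_ofReal, neg_sq, ← hX]
  congr 2
  rw [map_add, Complex.conj_ofReal]
  push_cast
  ring

lemma symm_norm (hX : ∀ z : ℂ, X (-(conj z)) = conj (X z)) (τ t r : ℝ) :
    ‖heat τ X (I * t - (r : ℂ))‖ = ‖heat τ X (I * t + (r : ℂ))‖ := by
  have e1 : I * (t : ℂ) + (r : ℂ) = -(conj (I * (t : ℂ) - (r : ℂ))) := by
    rw [map_sub, map_mul, Complex.conj_I, Complex.conj_ofReal, Complex.conj_ofReal]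
    ring
  rw [e1, heat_symm hX, Complex.norm_conj]

/-- Many zeros in windows of a fixed size. -/
theorem window (hκ : 1 / 2 ≤ κ) (hC : CG κ H X Z) (hst : ∀ s : ℂ, X s = 0 → |s.re| ≤ 1 / 2)
    {K0 : ℝ} (hK0 : 1 ≤ K0) :
    ∃ ρ T0 : ℝ, 1 ≤ ρ ∧ 2 ≤ T0 ∧ ∀ t : ℝ, T0 ≤ t → ∀ τ : ℝ, 0 ≤ τ → τ ≤ 1 / 8 → τ * Real.log t ≤ K0 →
      ∃ S : Finset ℂ, (∀ s ∈ S, heat τ X s = 0 ∧ |s.im - t| ≤ ρ) ∧
        κ * Real.log t / 4 ≤ ∑ s ∈ S, (analyticOrderNatAt (heat τ X) s : ℝ) := by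
  obtain ⟨K, hK, hslow⟩ := hC.slow
  obtain ⟨K1, T1, hK1, hT1, hg⟩ := gamH hC
  have hne : ∃ z, X z ≠ 0 := by
    by_contra hcon
    push Not at hcon
    have := hst 2 (hcon 2)
    norm_num at this
  obtain ⟨g0, gd, gi, gs, gc⟩ := Pool.Agent.Y275.GL.hht X (slowX hC.cf.diff hK hslow) hC.cf.symm hne hst
  obtain ⟨C1, hC1, hU⟩ := upper hκ hC hK0
  obtain ⟨U0, hLo⟩ := lower hκ hC gi hK0
  obtain ⟨C, hCd⟩ : ∃ C : ℝ, C = max C1 1 := ⟨_, rfl⟩
  obtain ⟨R, hR⟩ : ∃ R : ℝ, R = max (8 * C) (max U0 1) := ⟨_, rfl⟩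
  have hC0 : 0 ≤ C := by rw [hCd]; exact hC1.trans (le_max_left _ _)
  have hCC1 : C1 ≤ C := by rw [hCd]; exact le_max_left _ _
  have hCC2 : 1 ≤ C := by rw [hCd]; exact le_max_right _ _
  have hR1 : 1 ≤ R := by rw [hR]; exact (le_max_right _ _).trans (le_max_right _ _)
  have hRC : 8 * C ≤ R := by rw [hR]; exact le_max_left _ _
  have hRU : U0 ≤ R := by rw [hR]; exact (le_max_left _ _).trans (le_max_right _ _)
  obtain ⟨T2, hT2, hU⟩ := hU (2 * R + 2 * (1600 * R)) (by positivity)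
  obtain ⟨T3, hT3, hLo⟩ := hLo (2 * R) (by linarith)
  refine ⟨1600 * R, max T1 (max T2 T3), by linarith, hT1.trans (le_max_left _ _), fun t ht τ hτ0 hτ1 hτK => ?_⟩
  have g1 : T1 ≤ t := (le_max_left _ _).trans ht
  have g2 : T2 ≤ t := (le_max_left _ _).trans ((le_max_right _ _).trans ht)
  have g3 : T3 ≤ t := (le_max_right _ _).trans ((le_max_right _ _).trans ht)
  have hH : 0 < ‖H (I * t)‖ := (Real.exp_pos _).trans_le (hg t g1).1
  have hlt : 1 / 2 ≤ Real.log t := log_ge_half (by linarith)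
  have hκ0 : 0 < κ := by linarith
  have hL : 0 < κ * Real.log t := by positivity
  have hcnt := Pool.Agent.W670.SD.count (f := heat τ X) (gd τ hτ0) (R := R) (ρ := 1600 * R)
    (L := κ * Real.log t)
    (A := ‖H (I * t)‖) (C := C) (t := t) hR1 hC0 hRC le_rfl hL hH
    (by
      intro z hz
      have hre := (Complex.abs_re_le_norm _).trans hz
      have him := (Complex.abs_im_le_norm _).trans hz
      have e1 : (z - (I * (t : ℂ) + ((2 * R : ℝ) : ℂ))).re = z.re - 2 * R := by simp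
      have e2 : (z - (I * (t : ℂ) + ((2 * R : ℝ) : ℂ))).im = z.im - t := by simp
      rw [e1, abs_le] at hre
      rw [e2] at him
      refine (hU t g2 τ hτ0 hτ1 hτK z ?_ ?_).trans ?_
      · rw [abs_le]
        constructor <;> linarith [hre.1, hre.2]
      · linarith
      · gcongr)
    (by
      refine le_trans ?_ (hLo t g3 τ hτ0 hτ1 hτK)
      gcongr)
    (symm_norm hC.cf.symm τ t (2 * R)) (symm_norm hC.cf.symm τ t R)
    (fun z hz => gs τ z hτ0 hz)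
  obtain ⟨S, hS1, hS2⟩ := hcnt
  refine ⟨S, hS1, le_trans ?_ hS2⟩
  have : κ * Real.log t * 1 ≤ κ * Real.log t * R := mul_le_mul_of_nonneg_left hR1 hL.le
  linarith

/-- **Task TOTH** -/
theorem toth : S_TOTH := by
  classical
  intro κ H X Z hκ hC hst K hK
  obtain ⟨ρ, T1, hρ, hT1, hw⟩ := window hκ hC hst (K0 := K + 1) (by linarith)
  have hρ0 : 0 < ρ := by linarith
  have hκ0 : 0 < κ := by linarith
  refine ⟨1 / (64 * ρ), max T1 (8 * ρ), by positivity, hT1.trans (le_max_left _ _), ?_⟩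
  intro T τ hT hτ0 hτ1 hτK
  have g1 : T1 ≤ T := (le_max_left _ _).trans hT
  have g2 : 2 ≤ T := hT1.trans g1
  have g3 : 8 * ρ ≤ T := (le_max_right _ _).trans hT
  obtain ⟨n, hn⟩ : ∃ n : ℕ, n = ⌊T / (4 * ρ)⌋₊ := ⟨_, rfl⟩
  have hn1 : (n : ℝ) ≤ T / (4 * ρ) := by rw [hn]; exact Nat.floor_le (by positivity)
  have hn2 : T / (4 * ρ) < n + 1 := by rw [hn]; exact Nat.lt_floor_add_one _
  rw [le_div_iff₀ (by positivity)] at hn1
  rw [div_lt_iff₀ (by positivity)] at hn2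
  obtain ⟨tk, htk⟩ : ∃ tk : ℕ → ℝ, tk = fun k : ℕ => T + 3 * ρ * ((k : ℝ) + 1) := ⟨_, rfl⟩
  have htT : ∀ k, T ≤ tk k := by
    intro k
    rw [htk]
    have : 0 ≤ 3 * ρ * ((k : ℝ) + 1) := by positivity
    simp only
    linarith
  have htT2 : ∀ k, k < n → tk k ≤ 2 * T := by
    intro k hk
    have hk1 : (k : ℝ) + 1 ≤ n := by exact_mod_cast hk
    rw [htk]
    simp only
    have : 3 * ρ * ((k : ℝ) + 1) ≤ 3 * ρ * n := by gcongr
    have hn0 : 0 ≤ ρ * n := by positivity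
    linarith
  have hτk : ∀ k, k < n → τ * Real.log (tk k) ≤ K + 1 := by
    intro k hk
    have h1 : Real.log (tk k) ≤ Real.log 2 + Real.log T := by
      rw [← Real.log_mul (by norm_num) (by linarith)]
      exact Real.log_le_log (by linarith [htT k]) (htT2 k hk)
    have h2 : Real.log 2 ≤ 1 := by
      have := Real.log_two_lt_d9
      linarith
    calc τ * Real.log (tk k) ≤ τ * (1 + Real.log T) := by
          gcongr
          linarith
      _ = τ + τ * Real.log T := by ring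
      _ ≤ K + 1 := by linarith
  have hex : ∀ k : ℕ, ∃ S : Finset ℂ, k < n → (∀ s ∈ S, heat τ X s = 0 ∧ |s.im - tk k| ≤ ρ) ∧
        κ * Real.log (tk k) / 4 ≤ ∑ s ∈ S, (analyticOrderNatAt (heat τ X) s : ℝ) := by
    intro k
    by_cases hk : k < n
    · obtain ⟨S, hS⟩ := hw (tk k) (g1.trans (htT k)) τ hτ0 hτ1 (hτk k hk)
      exact ⟨S, fun _ => hS⟩
    · exact ⟨∅, fun h => absurd h hk⟩
  choose S hS using hex
  refine ⟨(Finset.range n).biUnion S, ?_, ?_⟩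
  · intro s hs'
    rw [Finset.mem_biUnion] at hs'
    obtain ⟨k, hk', hsk⟩ := hs'
    rw [Finset.mem_range] at hk'
    obtain ⟨a1, a2⟩ := (hS k hk').1 s hsk
    rw [abs_le, htk] at a2
    simp only at a2
    have hk1 : (k : ℝ) + 1 ≤ n := by exact_mod_cast hk'
    have hk0 : (0 : ℝ) ≤ k := Nat.cast_nonneg k
    refine ⟨a1, ?_, ?_⟩
    · nlinarith [a2.1]
    · have : 3 * ρ * ((k : ℝ) + 1) ≤ 3 * ρ * n := by gcongr
      have hn0 : 1 ≤ (n : ℝ) := by linarith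
      have : ρ * 1 ≤ ρ * n := mul_le_mul_of_nonneg_left hn0 hρ0.le
      linarith [a2.2]
  · rw [Finset.sum_biUnion]
    · have hL : 0 ≤ Real.log T := Real.log_nonneg (by linarith)
      have hterm : ∀ k ∈ Finset.range n,
          Real.log T / 8 ≤ ∑ s ∈ S k, (analyticOrderNatAt (heat τ X) s : ℝ) := by
        intro k hk
        rw [Finset.mem_range] at hk
        refine le_trans ?_ (hS k hk).2
        have h1 := Real.log_le_log (by linarith) (htT k)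
        have h2 : 1 / 2 * Real.log T ≤ κ * Real.log (tk k) := by gcongr
        linarith
      calc 1 / (64 * ρ) * T * Real.log T = (T / (8 * ρ)) * (Real.log T / 8) := by
            field_simp
            ring
        _ ≤ n * (Real.log T / 8) := by
            have : T / (8 * ρ) ≤ n := by
              rw [div_le_iff₀ (by positivity)]
              linarith
            gcongr
        _ = ∑ k ∈ Finset.range n, Real.log T / 8 := by
            rw [Finset.sum_const, Finset.card_range, nsmul_eq_mul]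
        _ ≤ _ := Finset.sum_le_sum hterm
    · intro j hj' k hk' hjk
      rw [Finset.mem_coe, Finset.mem_range] at hj' hk'
      rw [Function.onFun, Finset.disjoint_left]
      intro s hj hk
      have a1 := abs_le.1 ((hS j hj').1 s hj).2
      have a2 := abs_le.1 ((hS k hk').1 s hk).2
      rw [htk] at a1 a2
      simp only at a1 a2
      apply hjk
      have b1 : (j : ℝ) - k < 1 := by
        by_contra hc
        push Not at hc
        nlinarith [a1.1, a1.2, a2.1, a2.2]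
      have b2 : (k : ℝ) - j < 1 := by
        by_contra hc
        push Not at hc
        nlinarith [a1.1, a1.2, a2.1, a2.2]
      have c1 : (j : ℝ) < k + 1 := by linarith
      have c2 : (k : ℝ) < j + 1 := by linarith
      have d1 : j < k + 1 := by exact_mod_cast c1
      have d2 : k < j + 1 := by exact_mod_cast c2
      omega

end Pool.Agent.Y67.GL
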